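import Pool.Agent.MP_b5e119_nt.G1N.Defs
import Pool.Agent.MP_b5e119_nt.G42.CNT

/-! Row CNTN of campaign h1n. -/

namespace Pool.Agent.G1N

open Finset Filter Topology Pool.Agent.G60
open Pool.Agent.G42

theorem cntn_AN (p : ℕ) (χ : Ch p) : ‖AN p 1 χ‖ = 1 / (p.totient : ℝ) := by
  simp only [AN, Icc_self, sum_singleton, lam_one, Nat.cast_one, map_one, Int.cast_one, mul_one,
    norm_div, norm_one, Complex.norm_natCast]

open Classical in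
theorem cntn_one (hM : MOMKN_s) (p : ℕ) [NeZero p] (hp2 : 2 ≤ p) (b v : ℕ) (α : ℝ) (hα : 0 < α) (hb : 4 ≤ b)
    (hS : ∀ q ∈ BF b v, q.Prime ∧ v ≤ q ∧ q < 2 * v) (hv : 2 ^ b ^ 2 ≤ 2 * v)
    (hl : (Nat.log 2 (Nat.log 2 p) : ℝ) + 3 ≤ α * (b : ℝ) ^ 2) :
    (#{χ : Ch p | (v : ℝ) ^ (1 - α) < ‖QQ p b v χ‖} : ℝ) ≤ 2 * v * (p : ℝ) ^ (3 * α) := by
  have hp : (1 : ℝ) < p := by exact_mod_cast hp2
  have h2v : 1 < 2 * v := lt_of_lt_of_le (Nat.one_lt_two_pow (by positivity)) hv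
  have hv0 : (0 : ℝ) < v := by exact_mod_cast (by omega : 0 < v)
  obtain ⟨k, hk1, hk2⟩ : ∃ k : ℕ, (2 * v) ^ k ≤ p - 1 ∧ p - 1 < (2 * v) ^ (k + 1) :=
    ⟨Nat.log (2 * v) (p - 1), Nat.pow_log_le_self _ (by omega), Nat.lt_pow_succ_log_self h2v _⟩
  have h1 := hM p (BF b v) v k 1 hS (by omega)
  simp only [cntn_AN, Nat.cast_one, one_mul] at h1
  rw [← sum_mul] at h1
  have hp1 : (0 : ℝ) < (p.totient : ℝ) := by exact_mod_cast Nat.totient_pos.2 (by omega)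
  have hp3 : (p.totient : ℝ) ≤ (p : ℝ) - 1 := by
    have h0 : p.totient + 1 ≤ p := Nat.totient_lt p (by omega)
    have : (p.totient : ℝ) + 1 ≤ p := by exact_mod_cast h0
    linarith
  have h2 : ∑ χ : Ch p, ‖QQ p b v χ‖ ^ (2 * k) ≤ ((p : ℝ) - 1) * (v ^ k * ((k : ℝ) + 1) ^ k) := by
    have := mul_le_mul_of_nonneg_right h1 (sq_nonneg (p.totient : ℝ))
    refine le_trans ?_ (mul_le_mul_of_nonneg_right hp3 (by positivity))
    unfold QQ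
    refine le_trans (le_of_eq ?_) (this.trans (le_of_eq ?_)) <;> field_simp
  have h3 : (#{χ : Ch p | (v : ℝ) ^ (1 - α) < ‖QQ p b v χ‖} : ℝ) * ((v : ℝ) ^ (1 - α)) ^ (2 * k) ≤
      ∑ χ : Ch p, ‖QQ p b v χ‖ ^ (2 * k) := by
    rw [← nsmul_eq_mul, ← sum_const]
    refine (sum_le_sum fun χ hχ => ?_).trans
      (sum_le_sum_of_subset_of_nonneg (filter_subset _ _) fun _ _ _ => by positivity)
    exact pow_le_pow_left₀ (by positivity) (mem_filter.1 hχ).2.le _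
  have h4 : ((v : ℝ) ^ (1 - α)) ^ (2 * k) * ((v : ℝ) ^ k) ^ (2 * α) = (v : ℝ) ^ k * (v : ℝ) ^ k := by
    rw [← Real.rpow_natCast, ← Real.rpow_mul hv0.le, ← Real.rpow_natCast (v : ℝ) k,
      ← Real.rpow_mul hv0.le, ← Real.rpow_add hv0, ← Real.rpow_add hv0]
    congr 1; push_cast; ring
  have h5 : ((v : ℝ) ^ k) ^ (2 * α) ≤ (p : ℝ) ^ (2 * α) := by
    refine Real.rpow_le_rpow (by positivity) ?_ (by positivity)
    have : v ^ k ≤ p := le_trans (Nat.pow_le_pow_left (by omega) k) (hk1.trans (Nat.sub_le _ _))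
    exact_mod_cast this
  have h6 : (p : ℝ) - 1 ≤ 2 * v * (2 ^ k * (v : ℝ) ^ k) := by
    have : ((p - 1 : ℕ) : ℝ) ≤ (((2 * v) ^ (k + 1) : ℕ) : ℝ) := by exact_mod_cast hk2.le
    rw [Nat.cast_sub (by omega)] at this
    push_cast at this
    rw [pow_succ, mul_pow] at this
    linarith
  have h7 : (2 * ((k : ℝ) + 1)) ^ k ≤ (p : ℝ) ^ α := by
    refine cnt_pow hα hb hp2 ?_ hl
    rw [pow_mul]
    exact le_trans (Nat.pow_le_pow_left hv k) (hk1.trans (Nat.sub_le _ _))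
  have h8 : (p : ℝ) ^ (3 * α) = (p : ℝ) ^ α * (p : ℝ) ^ (2 * α) := by
    rw [← Real.rpow_add (by linarith)]; congr 1; ring
  have hV : (0 : ℝ) < (v : ℝ) ^ k := by positivity
  refine le_of_mul_le_mul_right ?_ (mul_pos hV hV)
  rw [mul_pow] at h7
  calc _ = (#{χ : Ch p | (v : ℝ) ^ (1 - α) < ‖QQ p b v χ‖} : ℝ) * ((v : ℝ) ^ (1 - α)) ^ (2 * k) *
        ((v : ℝ) ^ k) ^ (2 * α) := by rw [mul_assoc, h4]
    _ ≤ (2 * v * (2 ^ k * (v : ℝ) ^ k)) * (v ^ k * ((k : ℝ) + 1) ^ k) * (p : ℝ) ^ (2 * α) :=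
        mul_le_mul ((h3.trans h2).trans (mul_le_mul_of_nonneg_right h6 (by positivity))) h5
          (by positivity) (by positivity)
    _ = 2 * v * ((2 ^ k * ((k : ℝ) + 1) ^ k) * (p : ℝ) ^ (2 * α)) * ((v : ℝ) ^ k * (v : ℝ) ^ k) := by
        ring
    _ ≤ _ := by rw [h8]; gcongr

theorem cntn_row (hB : BLK_s) (hM : MOMKN_s) : CNTN_s := by
  classical
  intro p _ b α hb hα _ h4 hl
  obtain ⟨hc, hq⟩ := hB b hb
  have hp2 : 2 ≤ p := by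
    by_contra h
    have h0 : Nat.log 2 p = 0 := Nat.log_of_lt (by omega)
    rw [h0, Nat.cast_zero, mul_zero] at h4
    have : (0 : ℝ) < (b : ℝ) ^ 4 := pow_pos (by exact_mod_cast (by omega : 0 < b)) 4
    linarith
  have hp : (0 : ℝ) < p := by exact_mod_cast (by omega : 0 < p)
  have h1 : ∀ v ∈ BV b, (#{χ : Ch p | (v : ℝ) ^ (1 - α) < ‖QQ p b v χ‖} : ℝ) ≤
      2 * 2 ^ b ^ 4 * (p : ℝ) ^ (3 * α) := by
    intro v hv
    obtain ⟨q, hq0, rfl⟩ := mem_image.1 hv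
    have hlt : bk b q ≤ 2 ^ b ^ 4 := (hq q hq0).1.trans (mem_Ico.1 (mem_filter.1 hq0).1).2.le
    refine (cntn_one hM p hp2 b (bk b q) α hα hb (fun q' h' => ?_) (hq q hq0).2.2.1 hl).trans ?_
    · obtain ⟨h1, h2⟩ := mem_filter.1 h'
      have := hq q' h1
      rw [h2] at this
      exact ⟨(mem_filter.1 h1).2, this.1, this.2.2.2⟩
    · have : ((bk b q : ℕ) : ℝ) ≤ 2 ^ b ^ 4 := by exact_mod_cast hlt
      gcongr
  have h2 : (Sm p b α)ᶜ ⊆ (BV b).biUnion fun v => {χ : Ch p | (v : ℝ) ^ (1 - α) < ‖QQ p b v χ‖} := by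
    intro χ hχ
    simp only [Sm, mem_compl, mem_filter, mem_univ, true_and, not_forall, not_le] at hχ
    obtain ⟨v, hv, h⟩ := hχ
    exact mem_biUnion.2 ⟨v, hv, mem_filter.2 ⟨mem_univ _, h⟩⟩
  have h3 : (#((Sm p b α)ᶜ) : ℝ) ≤ #(BV b) * (2 * 2 ^ b ^ 4 * (p : ℝ) ^ (3 * α)) := by
    have := (card_le_card h2).trans card_biUnion_le
    rw [← nsmul_eq_mul, ← sum_const]
    exact le_trans (by exact_mod_cast this) (sum_le_sum h1)
  have h5 : (2 : ℝ) ^ b ^ 4 ≤ (p : ℝ) ^ α := by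
    calc (2 : ℝ) ^ b ^ 4 = (2 : ℝ) ^ ((b : ℝ) ^ 4) := by
          rw [← Real.rpow_natCast]; push_cast; rfl
      _ ≤ (2 : ℝ) ^ ((Nat.log 2 p : ℝ) * α) :=
          Real.rpow_le_rpow_of_exponent_le (by norm_num) (by linarith)
      _ = (((2 ^ Nat.log 2 p : ℕ) : ℝ)) ^ α := by
          rw [Real.rpow_mul (by norm_num), Real.rpow_natCast]; push_cast; rfl
      _ ≤ (p : ℝ) ^ α := Real.rpow_le_rpow (by positivity)
          (by exact_mod_cast Nat.pow_log_le_self 2 (by omega)) hα.le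
  have h6 : (#(BV b) : ℝ) * 2 ≤ (p : ℝ) ^ α := by
    refine le_trans ?_ h5
    have : #(BV b) * 2 ≤ 2 ^ b ^ 4 := le_trans (by omega) (cnt_b hb)
    exact_mod_cast this
  have h7 : (p : ℝ) ^ (5 * α) = (p : ℝ) ^ α * (p : ℝ) ^ α * (p : ℝ) ^ (3 * α) := by
    rw [← Real.rpow_add hp, ← Real.rpow_add hp]; congr 1; ring
  calc _ ≤ _ := h3
    _ = (#(BV b) * 2) * 2 ^ b ^ 4 * (p : ℝ) ^ (3 * α) := by ring
    _ ≤ _ := by rw [h7]; gcongr

end Pool.Agent.G1N
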