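import Pool.Agent.MP_b5e119_nt.G1N.Defs

/-! Row MOMKN of campaign h1n. -/

namespace Pool.Agent.G1N

open Finset Filter Topology Pool.Agent.G60
open Pool.Agent.G42

theorem momkn_orth (p : ℕ) [NeZero p] (a b : ZMod p) :
    ∑ χ : Ch p, (starRingEnd ℂ) (χ b) * χ a =
      if b = a ∧ IsUnit b then (p.totient : ℂ) else 0 := by
  by_cases hb : IsUnit b
  · have h := DirichletCharacter.sum_char_inv_mul_char_eq ℂ (n := p) (a := b) hb a
    simp only [hb, and_true]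
    rw [← h]
    refine Finset.sum_congr rfl fun χ _ => ?_
    have e : (starRingEnd ℂ) (χ b) = χ⁻¹ b := MulChar.star_apply' χ b
    obtain ⟨u, rfl⟩ := hb
    rw [e, MulChar.inv_apply, Ring.inverse_unit, ZMod.inv_coe_unit]
  · simp only [hb, and_false, if_false]
    exact sum_eq_zero fun χ _ => by rw [MulChar.map_nonunit χ hb, map_zero, zero_mul]

theorem momkn_gen {ι : Type*} (p : ℕ) [NeZero p] (W : Finset ι) (n : ι → ℕ) (c : ι → ℂ)
    (hn : ∀ z ∈ W, 0 < n z ∧ n z < p) (hc : ∀ z ∈ W, ‖c z‖ ≤ 1) :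
    ∑ χ : Ch p, ‖∑ z ∈ W, c z * (starRingEnd ℂ) (χ (n z : ZMod p))‖ ^ 2 ≤
      (p.totient : ℝ) * #{z ∈ W ×ˢ W | n z.1 = n z.2} := by
  have p1 : (0 : ℝ) ≤ (p.totient : ℝ) := Nat.cast_nonneg _
  have key : ((∑ χ : Ch p, ‖∑ z ∈ W, c z * (starRingEnd ℂ) (χ (n z : ZMod p))‖ ^ 2 : ℝ) : ℂ) =
      ∑ z ∈ W ×ˢ W, c z.1 * (starRingEnd ℂ) (c z.2) *
        (if n z.1 = n z.2 ∧ IsUnit (n z.1 : ZMod p) then (p.totient : ℂ) else 0) := by
    have h1 : ∀ χ : Ch p, ((‖∑ z ∈ W, c z * (starRingEnd ℂ) (χ (n z : ZMod p))‖ ^ 2 : ℝ) : ℂ) =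
        ∑ z ∈ W ×ˢ W, c z.1 * (starRingEnd ℂ) (c z.2) *
          ((starRingEnd ℂ) (χ (n z.1 : ZMod p)) * χ (n z.2 : ZMod p)) := fun χ => by
      rw [← Complex.normSq_eq_norm_sq, ← Complex.mul_conj, map_sum, sum_mul_sum, sum_product]
      refine sum_congr rfl fun z _ => sum_congr rfl fun z' _ => ?_
      rw [map_mul, Complex.conj_conj]
      ring
    rw [Complex.ofReal_sum]
    simp only [h1]
    rw [sum_comm]
    refine sum_congr rfl fun z hz => ?_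
    obtain ⟨h1, h2⟩ := mem_product.1 hz
    have a1 := hn _ h1
    have a2 := hn _ h2
    rw [← mul_sum, momkn_orth p _ _]
    have : ((n z.1 : ZMod p) = (n z.2 : ZMod p)) ↔ n z.1 = n z.2 := by
      rw [ZMod.natCast_eq_natCast_iff', Nat.mod_eq_of_lt a1.2, Nat.mod_eq_of_lt a2.2]
    simp only [this]
  have k2 := congrArg (fun w : ℂ => ‖w‖) key
  simp only [Complex.norm_real] at k2
  refine (le_abs_self _).trans ?_
  rw [← Real.norm_eq_abs, k2]
  refine (norm_sum_le _ _).trans ?_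
  rw [card_filter, Nat.cast_sum, mul_sum]
  refine sum_le_sum fun z hz => ?_
  obtain ⟨h1, h2⟩ := mem_product.1 hz
  have hcc := mul_le_one₀ (hc _ h1) (norm_nonneg _) (hc _ h2)
  by_cases h : n z.1 = n z.2
  · rw [if_pos h, Nat.cast_one, mul_one]
    split_ifs
    · rw [norm_mul, norm_mul, Complex.norm_conj, Complex.norm_natCast]
      nlinarith
    · simp
  · simp [h]

theorem momkn_row (hG : GCD_s) : MOMKN_s := by
  intro p hp S P k x hS hx
  have p1 : (0 : ℝ) < (p.totient : ℝ) := by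
    exact_mod_cast Nat.totient_pos.2 (Nat.pos_of_ne_zero (NeZero.ne p))
  have e : ‖(p.totient : ℂ)‖ = (p.totient : ℝ) := Complex.norm_natCast _
  have g := momkn_gen p (Fintype.piFinset (fun _ : Fin k => S) ×ˢ Icc 1 x)
    (fun z => (∏ i, z.1 i) * z.2) (fun z => (lam z.2 : ℂ)) (fun z hz => by
      obtain ⟨h1, h2⟩ := mem_product.1 hz
      have h3 := Fintype.mem_piFinset.1 h1
      have h4 := mem_Icc.1 h2
      refine ⟨Nat.mul_pos (prod_pos fun i _ => (hS _ (h3 i)).1.pos) h4.1, lt_of_le_of_lt ?_ hx⟩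
      refine Nat.mul_le_mul ?_ h4.2
      have := prod_le_pow_card univ (fun i => z.1 i) (2 * P) fun i _ => (hS _ (h3 i)).2.2.le
      simpa using this) (fun z _ => by simp [lam])
  have gc : (#{z ∈ (Fintype.piFinset (fun _ : Fin k => S) ×ˢ Icc 1 x) ×ˢ
      (Fintype.piFinset (fun _ : Fin k => S) ×ˢ Icc 1 x) |
      (∏ i, z.1.1 i) * z.1.2 = (∏ i, z.2.1 i) * z.2.2} : ℝ) ≤
      x * (P : ℝ) ^ k * ((k : ℝ) + 1) ^ k := by exact_mod_cast hG S P k x hS
  have h1 : ∀ χ : Ch p, ‖∑ q ∈ S, χ (q : ZMod p)‖ ^ (2 * k) * ‖AN p x χ‖ ^ 2 =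
      ‖∑ z ∈ Fintype.piFinset (fun _ : Fin k => S) ×ˢ Icc 1 x, (lam z.2 : ℂ) *
        (starRingEnd ℂ) (χ (((∏ i, z.1 i) * z.2 : ℕ) : ZMod p))‖ ^ 2 / (p.totient : ℝ) ^ 2 :=
    fun χ => by
    have h2 : ∑ z ∈ Fintype.piFinset (fun _ : Fin k => S) ×ˢ Icc 1 x, (lam z.2 : ℂ) *
        (starRingEnd ℂ) (χ (((∏ i, z.1 i) * z.2 : ℕ) : ZMod p)) =
        (starRingEnd ℂ) ((∑ q ∈ S, χ (q : ZMod p)) ^ k) *
          ∑ a ∈ Icc 1 x, (lam a : ℂ) * (starRingEnd ℂ) (χ (a : ZMod p)) := by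
      rw [sum_pow', map_sum, sum_mul_sum, sum_product]
      refine sum_congr rfl fun t _ => sum_congr rfl fun a _ => ?_
      rw [Nat.cast_mul, Nat.cast_prod, map_mul, map_prod, map_mul]
      ring
    rw [h2, norm_mul, Complex.norm_conj, norm_pow, AN, norm_div, e, mul_pow, div_pow,
      ← pow_mul, mul_comm k 2, mul_div_assoc]
  simp only [h1]
  rw [← sum_div, div_le_div_iff₀ (by positivity) p1]
  have := g.trans (mul_le_mul_of_nonneg_left gc p1.le)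
  nlinarith [mul_le_mul_of_nonneg_right this p1.le]

end Pool.Agent.G1N
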