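import Pool.Agent.MP_b5e119_nt.G27.Defs
import Pool.Agent.MP_b5e119_nt.G42.Defs
import Pool.Agent.MP_b5e119_nt.G94.Defs

/-! Statements of the rows of campaign h1n: a positive proportion of sign patterns modulo a
squarefree number `N` with `φ N ≥ η N`. -/

namespace Pool.Agent.G1N

open Finset Filter Topology Pool.Agent.G60

noncomputable section

def AN (N x : ℕ) (χ : Ch N) : ℂ :=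
  (∑ a ∈ Icc 1 x, (lam a : ℂ) * (starRingEnd ℂ) (χ (a : ZMod N))) / (N.totient : ℂ)

/-- Rough numbers of a dyadic range that are prime to `N`. -/
def RN (N z j : ℕ) : Finset ℕ := {d ∈ G94.RR z j | d.Coprime N}

/-- `g` is a product of non-trivial characters modulo the primes of the squarefree number `r`. -/
def Loc (r : ℕ) (g : Ch r) : Prop := Squarefree r ∧ ∃ gl : ∀ p : ℕ, Ch p,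
  (∀ p ∈ r.primeFactors, gl p ≠ 1) ∧
    ∀ n : ℕ, g (n : ZMod r) = ∏ p ∈ r.primeFactors, gl p (n : ZMod p)

/-- All small dilations have few exceptions. -/
def BM (N : ℕ) [NeZero N] (M : ℕ) (β : ℝ) : Prop := ∀ m, 0 < m → m ≤ M → (bad N m : ℝ) ≤ β * N

/-! ### Part 1: the climb -/

def DECN_s : Prop := ∀ (N : ℕ) [NeZero N] (b : ℕ) (T : Finset (Ch N)), 4 ≤ b → 2 ^ b ^ 4 < N →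
  0 < G42.LR b → ∑ χ ∈ T, G27.nu N χ ≤ 40 * (1 / G42.LR b + 1 / b) * ((N : ℝ) / N.totient) +
    2 * #(G42.BV b) / G42.LR b ^ 2 *
      ∑ v ∈ G42.BV b, ∑ χ ∈ T, ‖G42.QQ N b v χ‖ ^ 2 * ‖AN N (G42.XV N b v) χ‖ ^ 2

def MOMKN_s : Prop := ∀ (N : ℕ) [NeZero N] (S : Finset ℕ) (P k x : ℕ),
  (∀ q ∈ S, q.Prime ∧ P ≤ q ∧ q < 2 * P) → (2 * P) ^ k * x < N →
    ∑ χ : Ch N, ‖∑ q ∈ S, χ (q : ZMod N)‖ ^ (2 * k) * ‖AN N x χ‖ ^ 2 ≤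
      x * (P : ℝ) ^ k * ((k : ℝ) + 1) ^ k / N.totient

open Classical in
def STEPN_s : Prop := ∃ c₀ : ℕ, ∀ (N : ℕ) [NeZero N] (c : ℕ) (α α' : ℝ), c₀ ≤ c →
  2 ^ (2 ^ c) ^ 4 < N → 0 ≤ α → α + 3 / c ≤ α' →
    ∑ χ ∈ G42.Sm N (2 ^ c) α' \ G42.Sm N c α, G27.nu N χ ≤ 100 / c * ((N : ℝ) / N.totient)

open Classical in
def CNTN_s : Prop := ∀ (N : ℕ) [NeZero N] (b : ℕ) (α : ℝ), 4 ≤ b → 0 < α → α ≤ 1 / 2 →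
  (b : ℝ) ^ 4 ≤ α * Nat.log 2 N → (Nat.log 2 (Nat.log 2 N) : ℝ) + 3 ≤ α * (b : ℝ) ^ 2 →
    (#((G42.Sm N b α)ᶜ) : ℝ) ≤ (N : ℝ) ^ (5 * α)

def RICH_s : Prop := ∀ η : ℝ, 0 < η → ∃ b₀ : ℕ, ∀ N b : ℕ, 0 < N → η * N ≤ N.totient → b₀ ≤ b →
  ∃ v ∈ G42.BV b, v ≤ 4 * b ^ 5 * #{q ∈ G42.BF b v | ¬q ∣ N}

def BASEN_s : Prop := ∀ η α : ℝ, 0 < η → 0 < α → ∃ b₀ : ℕ, ∀ (N : ℕ) [NeZero N] (b : ℕ) (β : ℝ),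
  b₀ ≤ b → 1 < N → η * N ≤ N.totient → BM N (2 ^ b ^ 4) β →
    ∑ χ ∈ G42.Sm N b α, G27.nu N χ ≤ 4 * β / η

def INDN_s : Prop := ∀ η α e : ℝ, 0 < η → 0 < α → 0 < e → ∀ B : ℕ, ∃ b : ℕ, B ≤ b ∧ ∃ β : ℝ,
  0 < β ∧ ∀ (N : ℕ) [NeZero N], η * N ≤ N.totient → BM N (2 ^ b ^ 4) β → ∀ j : ℕ,
    2 ^ G42.tw b j ^ 4 < N → ∑ χ ∈ G42.Sm N (G42.tw b j) α, G27.nu N χ ≤ e

open Classical in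
def FEWN_s : Prop := ∀ η e : ℝ, 0 < η → 0 < e → ∃ (M : ℕ) (β : ℝ) (N₀ : ℕ), 0 < β ∧
  ∀ (N : ℕ) [NeZero N], N₀ ≤ N → η * N ≤ N.totient → BM N M β →
    ∃ U : Finset (Ch N), (#U : ℝ) ≤ (N : ℝ) ^ (1 / 50 : ℝ) ∧ ∑ χ ∈ Uᶜ, G27.nu N χ ≤ e

/-! ### Part 2: Burgess for squarefree moduli -/

def DECP_s : Prop := ∀ (N : ℕ) (ψ : Ch N), Squarefree N → ψ ≠ 1 → ∃ (r : ℕ) (g : Ch r),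
  r ∣ N ∧ g ≠ 1 ∧ Loc r g ∧ ∀ n : ℕ, n.Coprime N → ψ (n : ZMod N) = g (n : ZMod r)

def WEIN_s : Prop := ∀ (r : ℕ) (g : Ch r) (b : Fin 4 → ℕ) (i₀ : Fin 4), Loc r g →
  ‖∑ x ∈ range r, g ((x + b 0 : ℕ) : ZMod r) * g ((x + b 1 : ℕ) : ZMod r) *
      (starRingEnd ℂ) (g ((x + b 2 : ℕ) : ZMod r)) * (starRingEnd ℂ) (g ((x + b 3 : ℕ) : ZMod r))‖ ≤
    4 ^ #r.primeFactors * √r * ∏ j ∈ univ.erase i₀, (Nat.gcd (Nat.dist (b i₀) (b j)) r : ℝ)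

def MOMN_s : Prop := ∀ δ : ℝ, 0 < δ → ∃ C : ℝ, 0 < C ∧ ∀ (r : ℕ) (g : Ch r) (B : ℕ), Loc r g →
  ∑ x ∈ range r, ‖∑ b ∈ Icc 1 B, g ((x + b : ℕ) : ZMod r)‖ ^ 4 ≤
    C * (r : ℝ) ^ δ * (r * B ^ 2 + B ^ 4 * √r)

open Classical in
def BUR1N_s : Prop := ∀ (r u L A B : ℕ) (P : Finset ℕ) (g : Ch r) (τ W : ℝ),
  (∀ a ∈ P, a.Prime ∧ a ≤ A ∧ ¬a ∣ r) → P.Nonempty → A ≤ L → L * A ≤ r → 0 < B → 0 < τ →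
  (#{x ∈ range r | τ * B ≤ ‖∑ b ∈ Icc 1 B, g ((x + b : ℕ) : ZMod r)‖} : ℝ) ≤ W →
    ‖∑ t ∈ range L, g ((u + t : ℕ) : ZMod r)‖ ≤ τ * L + √(W * (9 * L * #P)) / #P + 16 * A * B

/-- Burgess in the middle range. -/
def BURM_s : Prop := ∃ r₀ : ℕ, ∀ (r : ℕ) (g : Ch r) (Y : ℕ), r₀ ≤ r → Loc r g →
  (r : ℝ) ^ (0.39 : ℝ) ≤ Y → (Y : ℝ) ≤ (r : ℝ) ^ (0.6 : ℝ) →
    ‖∑ n ∈ Icc 1 Y, g (n : ZMod r)‖ ≤ Y * (r : ℝ) ^ (-0.002 : ℝ)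

def BURN_s : Prop := ∃ N₀ : ℕ, ∀ (N r : ℕ) (g : Ch r) (Y : ℕ), N₀ ≤ N → r ≤ N → Loc r g → g ≠ 1 →
  (N : ℝ) ^ (0.39 : ℝ) ≤ Y → ‖∑ n ∈ Icc 1 Y, g (n : ZMod r)‖ ≤ Y * (N : ℝ) ^ (-0.001 : ℝ)

/-! ### Part 3: the end game -/

open Classical in
def TYPN_s : Prop := ∃ N₀ : ℕ, ∀ (N : ℕ) [NeZero N], N₀ ≤ N → ∀ (z k : ℕ) (U : Finset (Ch N)),
  2 ≤ z → N ≤ z ^ k → z ^ 5 ≤ N → (#U : ℝ) ≤ (N : ℝ) ^ (1 / 50 : ℝ) →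
    ∃ j : ℕ, 2 * Nat.log 2 N ≤ 5 * j ∧ 20 * (j + 1) ≤ 9 * Nat.log 2 N ∧ ∃ d₀ ∈ RN N z j,
      ∑ χ ∈ U, G27.nu N χ * ∑ d ∈ RN N z j,
        ‖(lam d : ℂ) * χ (d : ZMod N) - (lam d₀ : ℂ) * χ (d₀ : ZMod N)‖ ^ 2 ≤
          1600 * 2 ^ k * (∑ χ ∈ Uᶜ, G27.nu N χ) * 2 ^ j / Nat.log 2 N

def KEYA_s : Prop := ∀ κ : ℝ, 0 < κ → κ ≤ 1 / 100 → ∃ k N₀ : ℕ, ∀ N : ℕ, N₀ ≤ N → ∃ z : ℕ,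
  2 ≤ z ∧ N ≤ z ^ k ∧ z ^ 5 ≤ N ∧ ∀ j : ℕ, 2 * Nat.log 2 N ≤ 5 * j →
    20 * (j + 1) ≤ 9 * Nat.log 2 N → ∀ (r : ℕ) (g : Ch r) (c : ℂ), ‖c‖ = 1 →
      (∀ Y : ℕ, (N : ℝ) ^ (0.39 : ℝ) ≤ Y → ‖∑ n ∈ Icc 1 Y, g (n : ZMod r)‖ ≤ Y * (N : ℝ) ^ (-κ)) →
        (2 : ℝ) ^ j / Nat.log 2 N ≤ 4 ^ (k + 1) * ∑ d ∈ G94.RR z j, ‖g (d : ZMod r) - c‖ ^ 2

def NCP_s : Prop := ∀ N z j k : ℕ, 0 < N → 2 ≤ z → N ≤ z ^ k →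
  #{d ∈ G94.RR z j | ¬d.Coprime N} * z ≤ k * 2 ^ (j + 1)

def KEYN_s : Prop := ∃ k N₀ : ℕ, ∀ N : ℕ, N₀ ≤ N → Squarefree N → ∃ z : ℕ, 2 ≤ z ∧ N ≤ z ^ k ∧
  z ^ 5 ≤ N ∧ ∀ j : ℕ, 2 * Nat.log 2 N ≤ 5 * j → 20 * (j + 1) ≤ 9 * Nat.log 2 N →
    ∀ (ψ : Ch N) (c : ℂ), ψ ≠ 1 → ‖c‖ = 1 →
      (2 : ℝ) ^ j / Nat.log 2 N ≤ 2 * 4 ^ (k + 1) * ∑ d ∈ RN N z j, ‖ψ (d : ZMod N) - c‖ ^ 2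

open Classical in
def ENDU_s : Prop := ∃ (K : ℝ) (N₀ : ℕ), 0 < K ∧ ∀ (N : ℕ) [NeZero N], N₀ ≤ N → Squarefree N →
  ∀ U : Finset (Ch N), (#U : ℝ) ≤ (N : ℝ) ^ (1 / 50 : ℝ) →
    ∃ χ : Ch N, 1 - G27.nu N χ ≤ K * ∑ χ ∈ Uᶜ, G27.nu N χ

def CONN_s : Prop := ∀ η t : ℝ, 0 < η → 0 < t → ∃ (M : ℕ) (β : ℝ) (N₀ : ℕ), 0 < β ∧
  ∀ (N : ℕ) [NeZero N], N₀ ≤ N → Squarefree N → η * N ≤ N.totient → BM N M β →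
    ∃ χ : Ch N, χ ^ 2 = 1 ∧ χ ≠ 1 ∧ 1 - G27.nu N χ ≤ t

variable [Sg]

def STRN_s : Prop := ∀ (N : ℕ) [NeZero N] (χ : Ch N) (t : ℝ), 1 < N → χ ^ 2 = 1 →
  1 - G27.nu N χ ≤ t → t * N.totient + od N < N.totient →
    ∃ σ : ℤ, (σ = 1 ∨ σ = -1) ∧ 2 * (G27.EX χ σ : ℝ) ≤ t * N.totient ∧ G27.re χ (N - 1) = Sg.s

def ODN_s : Prop := ∀ (M : ℕ) (β : ℝ), 0 < β → ∃ (c : ℝ) (N₀ : ℕ), 0 < c ∧ ∀ (N : ℕ) [NeZero N],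
  N₀ ≤ N → ∀ e : ℤ, (e = 1 ∨ e = -1) → (cnt N e (-Sg.s * e) : ℝ) ≤ c * N →
    (od N : ℝ) ≤ β * N ∧ BM N M β

omit [Sg]

/-- The inverse theorem. -/
def TOPI_s : Prop := ∀ η ε : ℝ, 0 < η → 0 < ε → ∃ (c : ℝ) (N₀ : ℕ), 0 < c ∧
  ∀ (N : ℕ) [NeZero N], N₀ ≤ N → Squarefree N → η * N ≤ N.totient →
    ∀ e e' : ℤ, (e = 1 ∨ e = -1) → (e' = 1 ∨ e' = -1) → (cnt N e e' : ℝ) < c * N →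
      ∃ (χ : Ch N) (σ : ℤ), χ ^ 2 = 1 ∧ χ ≠ 1 ∧ χ (-1) = -(e * e' : ℤ) ∧ (σ = 1 ∨ σ = -1) ∧
        (G27.EX χ σ : ℝ) ≤ ε * N

end

end Pool.Agent.G1N
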