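import Pool.Agent.MP_b5e119_nt.G1N.Defs
import Pool.Agent.MP_b5e119_nt.G42.BASE

/-! Row BASEN of campaign h1n. -/

namespace Pool.Agent.G1N

open Finset Filter Topology Pool.Agent.G60
open Pool.Agent.G42

theorem basen_row (hR : RICH_s) (hBLK : BLK_s) (hMU : G27.MUG_s) : BASEN_s := by
  intro η α hη hα
  obtain ⟨b₁, h1⟩ := hR η hη
  obtain ⟨b₂, h2⟩ := base_ev α hα
  refine ⟨max 4 (max b₁ b₂), fun p _ b β hb hp hφ hbm => ?_⟩
  have hb4 : 4 ≤ b := le_trans (le_max_left _ _) hb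
  have hb1 : b₁ ≤ b := le_trans (le_trans (le_max_left _ _) (le_max_right _ _)) hb
  have hb2 : b₂ ≤ b := le_trans (le_trans (le_max_right _ _) (le_max_right _ _)) hb
  obtain ⟨v, hv, hvN⟩ := h1 p b (by omega) hφ hb1
  obtain ⟨F, hF⟩ : ∃ F, F = {q ∈ BF b v | ¬q ∣ p} := ⟨_, rfl⟩
  rw [← hF] at hvN
  obtain ⟨q₀, hq₀, hq₀v⟩ := mem_image.1 hv
  have hv2 : 2 ^ b ^ 2 ≤ 2 * v := by
    have := ((hBLK b hb4).2 q₀ hq₀).2.2.1
    rwa [hq₀v] at this
  have hv3 : 2 ^ b ≤ v := by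
    have h : 2 ^ (b + 1) ≤ 2 ^ b ^ 2 := Nat.pow_le_pow_right (by norm_num) (by nlinarith)
    rw [pow_succ] at h
    omega
  have hv3' : (2 : ℝ) ^ b ≤ v := by exact_mod_cast hv3
  have hv0 : (0 : ℝ) < v := lt_of_lt_of_le (by positivity) hv3'
  have hb0 : (0 : ℝ) < b := by exact_mod_cast (by omega : 0 < b)
  have hvN' : (v : ℝ) ≤ 8 * (b : ℝ) ^ 7 * #F := by
    have h3 : b ^ 5 ≤ b ^ 7 := Nat.pow_le_pow_right (by omega) (by norm_num)
    have h4 : v ≤ 8 * b ^ 7 * #F := hvN.trans (Nat.mul_le_mul_right _ (by omega))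
    exact_mod_cast h4
  have hpow : 32 * (b : ℝ) ^ 7 ≤ (v : ℝ) ^ α :=
    (h2 b hb2).trans (Real.rpow_le_rpow (by positivity) hv3' hα.le)
  have hsplit : (v : ℝ) ^ α * (v : ℝ) ^ (1 - α) = v := by
    rw [← Real.rpow_add hv0]; simp
  have hw0 : 0 < (v : ℝ) ^ (1 - α) := Real.rpow_pos_of_pos hv0 _
  have hN : 4 * (v : ℝ) ^ (1 - α) ≤ #F := by
    have h7 : 0 < 8 * (b : ℝ) ^ 7 := by positivity
    refine le_of_mul_le_mul_left ?_ h7
    have := mul_le_mul_of_nonneg_right hpow hw0.le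
    linarith
  have hN0 : (0 : ℝ) < #F := by linarith
  have hp0 : (0 : ℝ) < p.totient := by exact_mod_cast Nat.totient_pos.2 (by omega)
  have hq : ∀ q ∈ F, q.Prime ∧ q < 2 ^ b ^ 4 ∧ q.Coprime p := by
    intro q hq
    rw [hF] at hq
    have h' := mem_filter.1 (mem_filter.1 (mem_filter.1 hq).1).1
    exact ⟨h'.2, (mem_Ico.1 h'.1).2, (Nat.Prime.coprime_iff_not_dvd h'.2).2 (mem_filter.1 hq).2⟩
  have hmu : ∀ χ : Ch p, 0 ≤ G27.nu p χ := fun χ => by unfold G27.nu; positivity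
  have hA : ∀ χ ∈ Sm p b α, (#F : ℝ) ≤ ∑ q ∈ F, ‖χ (q : ZMod p) - (lam q : ℂ)‖ ^ 2 := by
    intro χ hχ
    have hχ' : ‖QQ p b v χ‖ ≤ (v : ℝ) ^ (1 - α) := by
      unfold Sm at hχ
      exact (mem_filter.1 hχ).2 v hv
    have hre : -‖QQ p b v χ‖ ≤ (QQ p b v χ).re := (abs_le.1 (Complex.abs_re_le_norm _)).1
    have hs : ∑ q ∈ F, (2 + 2 * (χ (q : ZMod p)).re) =
        ∑ q ∈ F, ‖χ (q : ZMod p) - (lam q : ℂ)‖ ^ 2 := by
      refine sum_congr rfl fun q hq' => ?_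
      have hu : IsUnit (q : ZMod p) := (ZMod.isUnit_iff_coprime q p).2 (hq q hq').2.2
      have hn : ‖χ (q : ZMod p)‖ = 1 := by
        obtain ⟨u, hu⟩ := hu
        rw [← hu]
        exact DirichletCharacter.unit_norm_eq_one χ u
      have hn2 : (χ (q : ZMod p)).re ^ 2 + (χ (q : ZMod p)).im ^ 2 = 1 := by
        have := Complex.sq_norm (χ (q : ZMod p))
        rw [hn, Complex.normSq_apply] at this
        linarith
      rw [lam_prime (hq q hq').1, Complex.sq_norm, Complex.normSq_apply]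
      simp only [Int.reduceNeg, Int.cast_neg, Int.cast_one, sub_neg_eq_add, Complex.add_re,
        Complex.one_re, Complex.add_im, Complex.one_im, add_zero]
      linarith
    rw [sum_add_distrib, ← mul_sum, ← Complex.re_sum] at hs
    simp only [sum_const, nsmul_eq_mul] at hs
    have hQ : QQ p b v χ = ∑ q ∈ F, χ (q : ZMod p) := by
      rw [hF, sum_filter]
      refine sum_congr rfl fun q hq' => ?_
      split_ifs with h
      · refine MulChar.map_nonunit χ fun hu => ?_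
        have h' := (mem_filter.1 (mem_filter.1 hq').1).2
        exact (Nat.Prime.coprime_iff_not_dvd h').1 ((ZMod.isUnit_iff_coprime q p).1 hu) h
      · rfl
    rw [← hQ] at hs
    linarith
  have hB : ∀ q ∈ F, ∑ χ : Ch p, G27.nu p χ * ‖χ (q : ZMod p) - (lam q : ℂ)‖ ^ 2 ≤ 4 * β / η := by
    intro q hq'
    obtain ⟨hqp, hql, hqc⟩ := hq q hq'
    have hm := (hMU p hp).2 q hqc
    have hd := hbm q hqp.pos hql.le
    have hS : 0 ≤ ∑ χ : Ch p, G27.nu p χ * ‖χ (q : ZMod p) - (lam q : ℂ)‖ ^ 2 :=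
      sum_nonneg fun χ _ => mul_nonneg (hmu χ) (by positivity)
    have hpR : (0 : ℝ) < p := by exact_mod_cast (by omega : 0 < p)
    rw [le_div_iff₀ hη]
    refine le_of_mul_le_mul_left ?_ hpR
    have := mul_le_mul_of_nonneg_right hφ hS
    nlinarith
  refine le_of_mul_le_mul_left ?_ hN0
  calc (#F : ℝ) * ∑ χ ∈ Sm p b α, G27.nu p χ
      = ∑ χ ∈ Sm p b α, G27.nu p χ * #F := by rw [mul_comm, sum_mul]
    _ ≤ ∑ χ ∈ Sm p b α, G27.nu p χ * (∑ q ∈ F, ‖χ (q : ZMod p) - (lam q : ℂ)‖ ^ 2) :=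
        sum_le_sum fun χ hχ => mul_le_mul_of_nonneg_left (hA χ hχ) (hmu χ)
    _ ≤ ∑ χ : Ch p, G27.nu p χ * (∑ q ∈ F, ‖χ (q : ZMod p) - (lam q : ℂ)‖ ^ 2) :=
        sum_le_sum_of_subset_of_nonneg (subset_univ _) fun χ _ _ =>
          mul_nonneg (hmu χ) (by positivity)
    _ = ∑ q ∈ F, ∑ χ : Ch p, G27.nu p χ * ‖χ (q : ZMod p) - (lam q : ℂ)‖ ^ 2 := by
        rw [sum_comm]
        exact sum_congr rfl fun χ _ => mul_sum _ _ _
    _ ≤ ∑ q ∈ F, 4 * β / η := sum_le_sum hB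
    _ = (#F : ℝ) * (4 * β / η) := by rw [sum_const, nsmul_eq_mul]

end Pool.Agent.G1N
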