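import Pool.Agent.MP_b5e119_nt.G1N.Defs
import Pool.Agent.MP_b5e119_nt.G42.DEC

/-! Row DECN of campaign h1n. -/

namespace Pool.Agent.G1N

open Finset Filter Topology Pool.Agent.G60
open Pool.Agent.G42

theorem decn_co (hBLK : BLK_s) (p : ℕ) [NeZero p] (b : ℕ) (hb : 4 ≤ b) (χ : Ch p) :
    G27.cu p (fun a => if a = 0 then 0 else ((HH p b a.val : ℤ) : ℂ)) χ =
      ∑ v ∈ BV b, (starRingEnd ℂ) (QQ p b v χ) * AN p (XV p b v) χ := by
  have e1 : ∑ a : ZMod p, (if a = 0 then 0 else ((HH p b a.val : ℤ) : ℂ)) * (starRingEnd ℂ) (χ a) =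
      ∑ n ∈ Icc 1 (p - 1), ((HH p b n : ℤ) : ℂ) * (starRingEnd ℂ) (χ (n : ZMod p)) := by
    rw [← dec_sum p fun n => ((HH p b n : ℤ) : ℂ) * (starRingEnd ℂ) (χ (n : ZMod p))]
    refine sum_congr rfl fun a _ => ?_
    by_cases h : a = 0
    · rw [if_pos h, if_pos h, zero_mul]
    · rw [if_neg h, if_neg h, ZMod.natCast_zmod_val]
  have e2 : ∀ q ∈ RR b, ∑ n ∈ Icc 1 (p - 1), (if q ∣ n ∧ n / q ≤ XV p b (bk b q) then
      (lam (n / q) : ℂ) * (starRingEnd ℂ) (χ (n : ZMod p)) else 0) =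
      (starRingEnd ℂ) (χ (q : ZMod p)) *
        ∑ a ∈ Icc 1 (XV p b (bk b q)), (lam a : ℂ) * (starRingEnd ℂ) (χ (a : ZMod p)) := by
    intro q hq
    have hq0 : 0 < q := (mem_filter.1 hq).2.pos
    have h1 := ((hBLK b hb).2 q hq).2.1
    have hX : q * XV p b (bk b q) ≤ p - 1 := by
      have h2 : XV p b (bk b q) * (b * bk b q) ≤ (b - 1) * (p - 1) := Nat.div_mul_le_self _ _
      have h3 : (b - 1) * (q * XV p b (bk b q)) ≤ (b - 1) * (p - 1) := by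
        calc (b - 1) * (q * XV p b (bk b q)) = XV p b (bk b q) * ((b - 1) * q) := by ring
          _ ≤ XV p b (bk b q) * (b * bk b q) := Nat.mul_le_mul_left _ h1
          _ ≤ _ := h2
      exact Nat.le_of_mul_le_mul_left h3 (by omega)
    rw [dec_inner (p - 1) q _ hq0 hX
      fun a n => (lam a : ℂ) * (starRingEnd ℂ) (χ (n : ZMod p)), mul_sum]
    refine sum_congr rfl fun a _ => ?_
    rw [Nat.cast_mul, map_mul, map_mul]
    ring
  have e3 : ∑ n ∈ Icc 1 (p - 1), ((HH p b n : ℤ) : ℂ) * (starRingEnd ℂ) (χ (n : ZMod p)) =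
      ∑ q ∈ RR b, (starRingEnd ℂ) (χ (q : ZMod p)) *
        ∑ a ∈ Icc 1 (XV p b (bk b q)), (lam a : ℂ) * (starRingEnd ℂ) (χ (a : ZMod p)) := by
    rw [← sum_congr rfl e2, sum_comm]
    refine sum_congr rfl fun n _ => ?_
    unfold HH
    rw [Int.cast_sum, sum_mul]
    refine sum_congr rfl fun q _ => ?_
    split_ifs
    · rfl
    · rw [Int.cast_zero, zero_mul]
  unfold G27.cu
  rw [e1, e3, ← sum_fiberwise_of_maps_to (s := RR b) (t := BV b) (g := bk b)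
    (fun q hq => mem_image_of_mem _ hq), sum_div]
  refine sum_congr rfl fun v _ => ?_
  unfold QQ AN BF
  rw [map_sum, sum_mul, sum_div]
  refine sum_congr rfl fun q hq => ?_
  rw [(mem_filter.1 hq).2, mul_div_assoc]

theorem decn_row (hPAR : G27.PARG_s) (hBLK : BLK_s) (hDECA : DECA_s) : DECN_s := by
  intro p _ b T hb hp hL
  have hp0 : 0 < p := Nat.pos_of_ne_zero (NeZero.ne p)
  have hp1 : (0 : ℝ) < p.totient := by exact_mod_cast Nat.totient_pos.2 hp0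
  have hb0 : (0 : ℝ) < b := by exact_mod_cast (by omega : 0 < b)
  have hA := hDECA p b hb hp
  set L : ℝ := LR b with hLdef
  set h : ZMod p → ℂ := fun a => if a = 0 then 0 else ((HH p b a.val : ℤ) : ℂ) with hh
  set g : ZMod p → ℂ := fun a => (L : ℂ) * (ff p a : ℂ) + h a with hg
  have hg0 : g 0 = 0 := by simp [hg, hh, ff]
  have hpar : (p.totient : ℝ) * ∑ χ : Ch p, ‖G27.cu p g χ‖ ^ 2 ≤
      ∑ n ∈ Icc 1 (p - 1), (L * (lam n : ℝ) + (HH p b n : ℝ)) ^ 2 := by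
    rw [← (hPAR p).2 (G27.cu p g), ← dec_sum p fun n => (L * (lam n : ℝ) + (HH p b n : ℝ)) ^ 2]
    refine sum_le_sum fun a _ => ?_
    by_cases hu : IsUnit a
    · rw [← (hPAR p).1 g a hu]
      by_cases h0 : a = 0
      · rw [if_pos h0, h0, hg0]; simp
      · have e : g a = ((L * (lam a.val : ℝ) + (HH p b a.val : ℝ) : ℝ) : ℂ) := by
          simp only [hg, hh, ff, if_neg h0]
          push_cast
          rfl
        rw [if_neg h0, e, Complex.norm_real, Real.norm_eq_abs, sq_abs]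
    · have e : ∑ χ : Ch p, G27.cu p g χ * χ a = 0 :=
        sum_eq_zero fun χ _ => by rw [MulChar.map_nonunit χ hu, mul_zero]
      rw [e, norm_zero, zero_pow two_ne_zero]
      split_ifs
      · exact le_rfl
      · positivity
  set ρ : ℝ := (p : ℝ) / p.totient with hρ
  have hρ0 : 0 ≤ ρ := by positivity
  have hG : ∑ χ : Ch p, ‖G27.cu p g χ‖ ^ 2 ≤ (18 * L + 8 * L ^ 2 / b) * ρ := by
    refine le_of_mul_le_mul_left ?_ hp1
    have e : (p.totient : ℝ) * ((18 * L + 8 * L ^ 2 / b) * ρ) = p * (18 * L + 8 * L ^ 2 / b) := by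
      rw [hρ]; field_simp
    have c : 0 ≤ 18 * L + 8 * L ^ 2 / b := by positivity
    rw [e]
    nlinarith [hpar.trans hA]
  have hlin : ∀ χ : Ch p, (L : ℂ) * G27.cu p (fun a => (ff p a : ℂ)) χ = G27.cu p g χ - G27.cu p h χ := by
    intro χ
    unfold G27.cu
    rw [← sub_div, ← sum_sub_distrib, ← mul_div_assoc, mul_sum]
    refine congrArg (fun z => z / (p.totient : ℂ)) (sum_congr rfl fun a _ => ?_)
    simp only [hg]
    ring
  have hpt : ∀ χ : Ch p, L ^ 2 * G27.nu p χ ≤ 2 * ‖G27.cu p g χ‖ ^ 2 + 2 * #(BV b) *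
      ∑ v ∈ BV b, ‖QQ p b v χ‖ ^ 2 * ‖AN p (XV p b v) χ‖ ^ 2 := by
    intro χ
    have a1 : L ^ 2 * G27.nu p χ = ‖G27.cu p g χ - G27.cu p h χ‖ ^ 2 := by
      rw [← hlin χ, norm_mul, mul_pow, Complex.norm_real, Real.norm_eq_abs, sq_abs, G27.nu]
    have a2 : ‖G27.cu p g χ - G27.cu p h χ‖ ^ 2 ≤ (‖G27.cu p g χ‖ + ‖G27.cu p h χ‖) ^ 2 :=
      pow_le_pow_left₀ (norm_nonneg _) (norm_sub_le _ _) 2
    have a3 : ‖G27.cu p h χ‖ ≤ ∑ v ∈ BV b, ‖QQ p b v χ‖ * ‖AN p (XV p b v) χ‖ := by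
      rw [hh, decn_co hBLK p b hb χ]
      refine le_trans (norm_sum_le _ _) (le_of_eq (sum_congr rfl fun v _ => ?_))
      rw [norm_mul, RCLike.norm_conj]
    have a4 : ‖G27.cu p h χ‖ ^ 2 ≤ #(BV b) *
        ∑ v ∈ BV b, ‖QQ p b v χ‖ ^ 2 * ‖AN p (XV p b v) χ‖ ^ 2 := by
      refine le_trans (pow_le_pow_left₀ (norm_nonneg _) a3 2)
        (le_trans sq_sum_le_card_mul_sum_sq (le_of_eq ?_))
      exact congrArg _ (sum_congr rfl fun v _ => mul_pow _ _ _)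
    nlinarith [sq_nonneg (‖G27.cu p g χ‖ - ‖G27.cu p h χ‖)]
  have hs := sum_le_sum fun χ (_ : χ ∈ T) => hpt χ
  rw [← mul_sum, sum_add_distrib, ← mul_sum, ← mul_sum, sum_comm] at hs
  have hT : ∑ χ ∈ T, ‖G27.cu p g χ‖ ^ 2 ≤ ∑ χ : Ch p, ‖G27.cu p g χ‖ ^ 2 :=
    sum_le_sum_of_subset_of_nonneg (subset_univ _) fun χ _ _ => by positivity
  set W : ℝ := ∑ v ∈ BV b, ∑ χ ∈ T, ‖QQ p b v χ‖ ^ 2 * ‖AN p (XV p b v) χ‖ ^ 2 with hW
  have hL2 : 0 < L ^ 2 := by positivity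
  refine le_of_mul_le_mul_left ?_ hL2
  have e : L ^ 2 * (40 * (1 / L + 1 / b) * ρ + 2 * #(BV b) / L ^ 2 * W) =
      40 * (L * ρ) + 40 * (L ^ 2 / b * ρ) + 2 * #(BV b) * W := by
    field_simp
  have c1 : 0 ≤ L ^ 2 / b * ρ := by positivity
  have c3 : 0 ≤ L * ρ := by positivity
  have c2 : (18 * L + 8 * L ^ 2 / b) * ρ = 18 * (L * ρ) + 8 * (L ^ 2 / b * ρ) := by ring
  rw [e]
  linarith

end Pool.Agent.G1N
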