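import Pool.Agent.MP_b5e119_nt.G1N.Defs

/-! Row RICH of campaign h1n. -/

namespace Pool.Agent.G1N

open Finset Filter Topology Pool.Agent.G60
open Pool.Agent.G42

theorem rich_phi (N : ℕ) (hN : 0 < N) :
    (N.totient : ℝ) ≤ N * Real.exp (-∑ q ∈ N.primeFactors, 1 / (q : ℝ)) := by
  have h := Nat.totient_eq_mul_prod_factors N
  have h2 : (N.totient : ℝ) = N * ∏ q ∈ N.primeFactors, (1 - (q : ℝ)⁻¹) := by
    have := congrArg (fun x : ℚ => (x : ℝ)) h
    push_cast at this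
    exact this
  rw [h2, ← sum_neg_distrib, Real.exp_sum]
  refine mul_le_mul_of_nonneg_left (prod_le_prod (fun q hq => ?_) fun q _ => ?_) (by positivity)
  · have h1 : (1 : ℝ) ≤ q := by exact_mod_cast (Nat.prime_of_mem_primeFactors hq).one_le
    have := inv_le_one_of_one_le₀ h1
    linarith
  · have := Real.add_one_le_exp (-(1 / (q : ℝ)))
    rw [one_div] at this ⊢
    linarith

theorem rich_row (hB : BLK_s) (hL : LRB_s) : RICH_s := by
  classical
  intro η hη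
  obtain ⟨b₁, hL⟩ := hL
  obtain ⟨b₂, hb₂⟩ := exists_nat_ge (Real.exp 1 / η)
  refine ⟨b₁ + b₂ + 4, fun N b hN hφ hb => ?_⟩
  obtain ⟨hc, hq⟩ := hB b (by omega)
  have hNR : (0 : ℝ) < N := by exact_mod_cast hN
  have hb0 : (0 : ℝ) < b := by exact_mod_cast (by omega : 0 < b)
  have h1 : ∑ q ∈ N.primeFactors, 1 / (q : ℝ) ≤ -Real.log η := by
    have h2 : η ≤ Real.exp (-∑ q ∈ N.primeFactors, 1 / (q : ℝ)) := by
      refine le_of_mul_le_mul_left ?_ hNR
      have := rich_phi N hN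
      linarith
    have h3 := Real.log_le_log hη h2
    rw [Real.log_exp] at h3
    linarith
  have h2 : 1 - Real.log η ≤ Real.log b := by
    have h3 : Real.exp 1 / η ≤ b := hb₂.trans (by exact_mod_cast (by omega : b₂ ≤ b))
    have h4 := Real.log_le_log (by positivity) h3
    rwa [Real.log_div (by positivity) hη.ne', Real.log_exp] at h4
  have h3 : ∑ q ∈ RR b with q ∣ N, 1 / (q : ℝ) ≤ ∑ q ∈ N.primeFactors, 1 / (q : ℝ) := by
    refine sum_le_sum_of_subset_of_nonneg (fun q hq' => ?_) fun q _ _ => by positivity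
    obtain ⟨g1, g2⟩ := mem_filter.1 hq'
    exact Nat.mem_primeFactors.2 ⟨(mem_filter.1 g1).2, g2, hN.ne'⟩
  have h4 : 1 ≤ ∑ q ∈ RR b with ¬q ∣ N, 1 / (q : ℝ) := by
    have h5 := sum_filter_add_sum_filter_not (RR b) (fun q => q ∣ N) fun q => 1 / (q : ℝ)
    have h6 := (hL b (by omega)).1
    unfold LR at h6
    linarith
  by_contra hcon
  have h5 : ∀ v ∈ BV b, ∑ q ∈ {q ∈ RR b | ¬q ∣ N} with bk b q = v, 1 / (q : ℝ) <
      1 / (4 * (b : ℝ) ^ 5) := by
    intro v hv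
    have g1 : 4 * b ^ 5 * #{q ∈ BF b v | ¬q ∣ N} < v := not_le.1 fun h => hcon ⟨v, hv, h⟩
    have g2 : 4 * (b : ℝ) ^ 5 * #{q ∈ BF b v | ¬q ∣ N} < v := by exact_mod_cast g1
    have v0 : (0 : ℝ) < v := lt_of_le_of_lt (by positivity) g2
    have e : {q ∈ {q ∈ RR b | ¬q ∣ N} | bk b q = v} = {q ∈ BF b v | ¬q ∣ N} := by
      unfold BF
      exact filter_comm _ _ _
    rw [e]
    have g3 : ∑ q ∈ {q ∈ BF b v | ¬q ∣ N}, 1 / (q : ℝ) ≤ #{q ∈ BF b v | ¬q ∣ N} • (1 / (v : ℝ)) := by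
      refine sum_le_card_nsmul _ _ _ fun q hq' => one_div_le_one_div_of_le v0 ?_
      obtain ⟨g4, g5⟩ := mem_filter.1 (mem_filter.1 hq').1
      have := (hq q g4).1
      rw [g5] at this
      exact_mod_cast this
    rw [nsmul_eq_mul] at g3
    refine g3.trans_lt ?_
    rw [mul_one_div, div_lt_div_iff₀ v0 (by positivity)]
    linarith
  rw [← sum_fiberwise_of_maps_to (s := {q ∈ RR b | ¬q ∣ N}) (t := BV b) (g := bk b)
    (fun q hq' => mem_image_of_mem _ (mem_filter.1 hq').1)] at h4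
  rcases (BV b).eq_empty_or_nonempty with h | h
  · rw [h, sum_empty] at h4
    linarith
  · have h6 := sum_lt_sum_of_nonempty h h5
    rw [sum_const, nsmul_eq_mul, mul_one_div] at h6
    have h7 : (#(BV b) : ℝ) ≤ 4 * (b : ℝ) ^ 5 := by exact_mod_cast hc
    have h8 : (#(BV b) : ℝ) / (4 * (b : ℝ) ^ 5) ≤ 1 := (div_le_one (by positivity)).2 h7
    linarith

end Pool.Agent.G1N
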