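import Pool.Agent.MP_b5e119_nt.G1N.Defs
import Pool.Agent.MP_b5e119_nt.G42.STEP

/-! Row STEPN of campaign h1n. -/

namespace Pool.Agent.G1N

open Finset Filter Topology Pool.Agent.G60
open Pool.Agent.G42

theorem stepn_uv (hB : BLK_s) (hM : MOMKN_s) (hA : STA_s) (p : ℕ) [NeZero p] (c u v : ℕ)
    (α α' : ℝ) (hc : 4 ≤ c) (hα : 0 ≤ α) (hα' : α + 3 / c ≤ α') (hu : u ∈ BV c)
    (hv : v ∈ BV (2 ^ c)) :
    ∑ χ : Ch p, (v : ℝ) ^ (2 - 2 * α') * ((u : ℝ) ^ (-(2 * (Nat.log (2 * u) v : ℝ) * (1 - α))) *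
      (‖QQ p c u χ‖ ^ (2 * Nat.log (2 * u) v) * ‖AN p (XV p (2 ^ c) v) χ‖ ^ 2)) ≤
        2 * 2 ^ c ^ 4 * (v : ℝ) ^ (-(1 / (c : ℝ))) * ((p : ℝ) / p.totient) := by
  have hb : 4 ≤ 2 ^ c := hc.trans Nat.lt_two_pow_self.le
  obtain ⟨u1, u2, u3⟩ := step_bv hB hc hu
  obtain ⟨v1, v2, -⟩ := step_bv hB hb hv
  have u0 : 1 < 2 * u := lt_of_lt_of_le (Nat.one_lt_two_pow (by positivity)) u1
  have v0 : 0 < v := by have := Nat.two_pow_pos ((2 ^ c) ^ 2); omega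
  obtain ⟨k, hk⟩ : ∃ k, k = Nat.log (2 * u) v := ⟨_, rfl⟩
  have k1 : (2 * u) ^ k ≤ v := hk ▸ Nat.pow_log_le_self _ v0.ne'
  have k2 : v < (2 * u) ^ (k + 1) := hk ▸ Nat.lt_pow_succ_log_self u0 v
  have hp : 0 < p := Nat.pos_of_ne_zero (NeZero.ne p)
  have x1 : XV p (2 ^ c) v * v ≤ p - 1 := by
    refine Nat.le_of_mul_le_mul_left ?_ (by omega : 0 < 2 ^ c)
    calc 2 ^ c * (XV p (2 ^ c) v * v) = XV p (2 ^ c) v * (2 ^ c * v) := by ring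
      _ ≤ (2 ^ c - 1) * (p - 1) := Nat.div_mul_le_self _ _
      _ ≤ _ := Nat.mul_le_mul_right _ (Nat.sub_le _ _)
  rw [← hk]
  obtain ⟨x, hx⟩ : ∃ x, x = XV p (2 ^ c) v := ⟨_, rfl⟩
  rw [← hx] at x1 ⊢
  have x2 : (2 * u) ^ k * x < p := by
    have := Nat.mul_le_mul_right x k1
    rw [mul_comm v x] at this
    omega
  have m := hM p (BF c u) u k x u3 x2
  have a := hA c u v k α α' (by omega) u1 k1 k2 v2 hα hα'
  have vR : (0 : ℝ) < v := by exact_mod_cast v0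
  have pR : (0 : ℝ) < (p.totient : ℝ) := by exact_mod_cast Nat.totient_pos.2 hp
  have x3 : (x : ℝ) * v ≤ (p : ℝ) := by
    have : x * v ≤ p := by omega
    exact_mod_cast this
  have m2 : x * (u : ℝ) ^ k * ((k : ℝ) + 1) ^ k / (p.totient : ℝ) ≤
      (u : ℝ) ^ k * ((k : ℝ) + 1) ^ k / v * ((p : ℝ) / p.totient) := by
    rw [div_mul_div_comm, div_le_div_iff₀ pR (mul_pos vR pR)]
    calc _ = (u : ℝ) ^ k * ((k : ℝ) + 1) ^ k * (x * v) * p.totient := by ring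
      _ ≤ _ := mul_le_mul_of_nonneg_right (mul_le_mul_of_nonneg_left x3 (by positivity)) pR.le
  have uR : (u : ℝ) ≤ 2 ^ c ^ 4 := by exact_mod_cast u2.le
  rw [← mul_sum, ← mul_sum, ← mul_assoc]
  calc _ ≤ (v : ℝ) ^ (2 - 2 * α') * (u : ℝ) ^ (-(2 * (k : ℝ) * (1 - α))) *
        ((u : ℝ) ^ k * ((k : ℝ) + 1) ^ k / v * ((p : ℝ) / p.totient)) :=
        mul_le_mul_of_nonneg_left (m.trans m2) (by positivity)
    _ = (v : ℝ) ^ (2 - 2 * α') * (u : ℝ) ^ (-(2 * (k : ℝ) * (1 - α))) *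
        ((u : ℝ) ^ k * ((k : ℝ) + 1) ^ k / v) * ((p : ℝ) / p.totient) := by ring
    _ ≤ 2 * u * (v : ℝ) ^ (-(1 / (c : ℝ))) * ((p : ℝ) / p.totient) :=
        mul_le_mul_of_nonneg_right a (by positivity)
    _ ≤ _ := by gcongr

open Classical in
theorem stepn_v (hB : BLK_s) (hM : MOMKN_s) (hA : STA_s) (p : ℕ) [NeZero p] (c v : ℕ)
    (α α' : ℝ) (hc : 4 ≤ c) (hα : 0 ≤ α) (hα' : α + 3 / c ≤ α') (hv : v ∈ BV (2 ^ c)) :
    ∑ χ ∈ Sm p (2 ^ c) α' \ Sm p c α, ‖QQ p (2 ^ c) v χ‖ ^ 2 * ‖AN p (XV p (2 ^ c) v) χ‖ ^ 2 ≤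
      4 * (c : ℝ) ^ 5 * (2 * 2 ^ c ^ 4 * (v : ℝ) ^ (-(1 / (c : ℝ))) * ((p : ℝ) / p.totient)) := by
  obtain ⟨F, hF⟩ : ∃ F : ℕ → Ch p → ℝ, F = fun (u : ℕ) (χ : Ch p) => (v : ℝ) ^ (2 - 2 * α') *
      ((u : ℝ) ^ (-(2 * (Nat.log (2 * u) v : ℝ) * (1 - α))) *
        (‖QQ p c u χ‖ ^ (2 * Nat.log (2 * u) v) * ‖AN p (XV p (2 ^ c) v) χ‖ ^ 2)) := ⟨_, rfl⟩
  have F0 : ∀ u χ, 0 ≤ F u χ := fun u χ => by rw [hF]; positivity
  have h1 : ∀ χ ∈ Sm p (2 ^ c) α' \ Sm p c α,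
      ‖QQ p (2 ^ c) v χ‖ ^ 2 * ‖AN p (XV p (2 ^ c) v) χ‖ ^ 2 ≤ ∑ u ∈ BV c, F u χ := by
    intro χ hχ
    obtain ⟨g1, g2⟩ := mem_sdiff.1 hχ
    have g3 := (mem_filter.1 g1).2 v hv
    obtain ⟨u, hu, g4⟩ : ∃ u ∈ BV c, (u : ℝ) ^ (1 - α) < ‖QQ p c u χ‖ := by
      by_contra h
      exact g2 (mem_filter.2 ⟨mem_univ _, fun u hu => not_lt.1 fun g => h ⟨u, hu, g⟩⟩)
    refine le_trans ?_ (single_le_sum (f := fun u => F u χ) (fun u _ => F0 u χ) hu)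
    have u0 : (0 : ℝ) < u := by
      have := (step_bv hB hc hu).1
      have := Nat.two_pow_pos (c ^ 2)
      exact_mod_cast (by omega : 0 < u)
    have g5 : ‖QQ p (2 ^ c) v χ‖ ^ 2 ≤ (v : ℝ) ^ (2 - 2 * α') := by
      refine (pow_le_pow_left₀ (norm_nonneg _) g3 2).trans (le_of_eq ?_)
      rw [← Real.rpow_natCast, ← Real.rpow_mul (Nat.cast_nonneg _)]
      congr 1
      push_cast
      ring
    obtain ⟨k, hk⟩ : ∃ k, k = Nat.log (2 * u) v := ⟨_, rfl⟩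
    have g6 : 1 ≤ (u : ℝ) ^ (-(2 * (k : ℝ) * (1 - α))) * ‖QQ p c u χ‖ ^ (2 * k) := by
      have a1 := pow_le_pow_left₀ (by positivity) g4.le (2 * k)
      have a2 : ((u : ℝ) ^ (1 - α)) ^ (2 * k) = (u : ℝ) ^ (2 * (k : ℝ) * (1 - α)) := by
        rw [← Real.rpow_natCast, ← Real.rpow_mul u0.le]
        congr 1
        push_cast
        ring
      rw [a2] at a1
      rw [Real.rpow_neg u0.le, ← div_eq_inv_mul, one_le_div (by positivity)]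
      exact a1
    simp only [hF]
    rw [← hk, ← mul_assoc ((u : ℝ) ^ _)]
    exact mul_le_mul g5 (le_mul_of_one_le_left (by positivity) g6) (by positivity) (by positivity)
  have h2 : ∑ χ ∈ Sm p (2 ^ c) α' \ Sm p c α, ∑ u ∈ BV c, F u χ ≤ ∑ χ, ∑ u ∈ BV c, F u χ :=
    sum_le_sum_of_subset_of_nonneg (subset_univ _) fun χ _ _ => sum_nonneg fun u _ => F0 u χ
  refine (sum_le_sum h1).trans (h2.trans ?_)
  rw [sum_comm]
  have h3 : ∀ u ∈ BV c, ∑ χ, F u χ ≤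
      2 * 2 ^ c ^ 4 * (v : ℝ) ^ (-(1 / (c : ℝ))) * ((p : ℝ) / p.totient) := fun u hu => by
    rw [hF]
    exact stepn_uv hB hM hA p c u v α α' hc hα hα' hu hv
  refine (sum_le_card_nsmul _ _ _ h3).trans ?_
  rw [nsmul_eq_mul]
  refine mul_le_mul_of_nonneg_right ?_ (by positivity)
  exact_mod_cast (hB c hc).1

theorem stepn_row (hB : BLK_s) (hL : LRB_s) (hD : DECN_s) (hM : MOMKN_s) (hA : STA_s)
    (hS : STB_s) : STEPN_s := by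
  obtain ⟨b₀, hL⟩ := hL
  obtain ⟨c₀, hS⟩ := hS
  refine ⟨b₀ + c₀ + 4, fun p _ c α α' hc hp hα hα' => ?_⟩
  have hcb : c < 2 ^ c := Nat.lt_two_pow_self
  have hb : 4 ≤ 2 ^ c := by omega
  have c4 : (4 : ℝ) ≤ c := by exact_mod_cast (by omega : 4 ≤ c)
  have l1 := (hL (2 ^ c) (by omega)).1
  rw [Nat.cast_pow, Real.log_pow, Nat.cast_ofNat] at l1
  have l2 := Real.log_two_gt_d9
  have l3 : 0.69 * (c : ℝ) ≤ LR (2 ^ c) := by nlinarith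
  refine (hD p (2 ^ c) _ hb hp (by linarith)).trans ?_
  obtain ⟨L, hLe⟩ : ∃ L, L = LR (2 ^ c) := ⟨_, rfl⟩
  rw [← hLe] at l3 ⊢
  obtain ⟨b, hbe⟩ : ∃ b : ℝ, b = 2 ^ c := ⟨_, rfl⟩
  have cb : (c : ℝ) ≤ b := by rw [hbe]; exact_mod_cast hcb.le
  have n1 : (#(BV (2 ^ c)) : ℝ) ≤ 4 * b ^ 5 := by rw [hbe]; exact_mod_cast (hB _ hb).1
  have c0 : (0 : ℝ) < c := by linarith
  have b0 : 0 < b := by linarith
  have ρ0 : (0 : ℝ) ≤ (p : ℝ) / p.totient := by positivity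
  have t1 := sum_le_card_nsmul (BV (2 ^ c)) _ (1 / (32 * b ^ 10 * c) * ((p : ℝ) / p.totient))
    fun v hv => (stepn_v hB hM hA p c v α α' (by omega) hα hα' hv).trans (by
      have h := hS c v (by omega) (step_bv hB hb hv).1
      rw [← hbe] at h
      rw [← mul_assoc]
      refine mul_le_mul_of_nonneg_right ?_ ρ0
      rw [le_div_iff₀ (by positivity)]
      calc _ = 256 * b ^ 10 * (c : ℝ) ^ 6 * 2 ^ c ^ 4 * (v : ℝ) ^ (-(1 / (c : ℝ))) := by ring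
        _ ≤ 1 := h)
  rw [nsmul_eq_mul] at t1
  obtain ⟨ρ, hρ⟩ : ∃ ρ : ℝ, ρ = (p : ℝ) / p.totient := ⟨_, rfl⟩
  rw [← hρ] at t1 ρ0 ⊢
  have t2 : 2 * (#(BV (2 ^ c)) : ℝ) / L ^ 2 ≤ 2 * (4 * b ^ 5) := by
    refine (div_le_self (by positivity) (one_le_pow₀ (by linarith))).trans ?_
    linarith
  have t3 := mul_le_mul t2 (t1.trans (mul_le_mul_of_nonneg_right n1 (by positivity)))
    (sum_nonneg fun v _ => sum_nonneg fun χ _ => by positivity) (by positivity)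
  have t4 : 2 * (4 * b ^ 5) * (4 * b ^ 5 * (1 / (32 * b ^ 10 * c) * ρ)) = 1 / c * ρ := by
    field_simp
    norm_num
  have t5 : 1 / L ≤ 1.45 * (1 / c) := by
    rw [mul_one_div, div_le_div_iff₀ (by linarith) c0]
    linarith
  have t6 : 1 / b ≤ 1 / c := one_div_le_one_div_of_le c0 cb
  have t7 : (100 : ℝ) / c = 100 * (1 / c) := by ring
  have t8 : (0 : ℝ) < 1 / c := by positivity
  rw [t4] at t3
  rw [Nat.cast_pow, Nat.cast_ofNat, ← hbe, t7]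
  have t9 := mul_le_mul_of_nonneg_right t5 ρ0
  have t10 := mul_le_mul_of_nonneg_right t6 ρ0
  have t11 := mul_nonneg t8.le ρ0
  nlinarith

end Pool.Agent.G1N
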